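import Pool.Agent.MP_8ca5b0_lc.Mg.Exists

namespace Pool.Agent.MP_8ca5b0_lc.H70

open MeasureTheory Filter Pool.Agent.MP_8ca5b0_lc
open scoped ENNReal

variable {U : List Bool →. List Bool}

theorem measurable_pre_fun {β : Type} [MeasurableSpace β] (m : ℕ) (h : List Bool → β) :
    Measurable fun X : ℕ → Bool => h (pre m X) :=
  (measurable_of_countable fun x : Fin m → Bool => h (List.ofFn x)).comp (measurable_res m)

/-- positive part of the deficiency of the prefix of length `n` -/
noncomputable def g (U : List Bool →. List Bool) (n : ℕ) (X : ℕ → Bool) : ℝ≥0∞ :=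
  ((n - plainC U (pre n X) : ℕ) : ℝ≥0∞)

theorem measurable_g (n : ℕ) : Measurable (g U n) :=
  measurable_pre_fun n fun x => ((n - plainC U x : ℕ) : ℝ≥0∞)

theorem sum_sub_avgC (μ : Measure (ℕ → Bool)) [IsProbabilityMeasure μ] (l : List ℕ) :
    Integrable (fun X => (l.map fun n : ℕ => (n : ℝ) - plainC U (pre n X)).sum) μ ∧
    (l.map fun n : ℕ => (n : ℝ) - avgC U μ n).sum =
      ∫ X, (l.map fun n : ℕ => (n : ℝ) - plainC U (pre n X)).sum ∂μ := by
  induction l with
  | nil => simp
  | cons a l ih =>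
    simp only [List.map_cons, List.sum_cons]
    have ha := integrable_pre μ a fun x => (a : ℝ) - plainC U x
    refine ⟨ha.add ih.1, ?_⟩
    rw [integral_add ha ih.1, ih.2, sub_avgC]

theorem lower (hU : IsOptimal U) : ∃ c : ℝ, 0 ≤ c ∧ ∀ (μ : Measure (ℕ → Bool))
    [IsProbabilityMeasure μ] (d : ℝ), (∃ᶠ n : ℕ in atTop, (n : ℝ) - d ≤ avgC U μ n) →
      ∫⁻ X, liminf (fun n => g U n X) atTop ∂μ ≤ ENNReal.ofReal (d + c) := by
  obtain ⟨c₀, h₀⟩ := hU.exists_le Computable.id
  refine ⟨c₀, Nat.cast_nonneg _, fun μ _ d hd => ?_⟩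
  refine (lintegral_liminf_le fun n => measurable_g n).trans ?_
  refine liminf_le_of_frequently_le' (hd.mono fun n hn => ?_)
  have hi := integrable_pre μ n fun x => (n : ℝ) - plainC U x + c₀
  have hb : ∀ X, (plainC U (pre n X) : ℝ) ≤ n + c₀ := fun X => by
    obtain ⟨q, hq, hl⟩ := h₀ (pre n X)
    rw [length_pre] at hl
    exact_mod_cast (plainC_le hq).trans hl
  have h1 : ∫⁻ X, g U n X ∂μ ≤
      ∫⁻ X, ENNReal.ofReal ((n : ℝ) - plainC U (pre n X) + c₀) ∂μ := by
    refine lintegral_mono fun X => ?_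
    unfold g
    rw [← ENNReal.ofReal_natCast]
    refine ENNReal.ofReal_le_ofReal ?_
    have := hb X
    rcases le_total (plainC U (pre n X)) n with h | h
    · rw [Nat.cast_sub h]; have : (0 : ℝ) ≤ c₀ := Nat.cast_nonneg _; linarith
    · rw [Nat.sub_eq_zero_of_le h]; push_cast; linarith
  refine h1.trans ?_
  rw [← ofReal_integral_eq_lintegral_ofReal hi
    (Eventually.of_forall fun X => by have := hb X; simp only [Pi.zero_apply]; linarith)]
  refine ENNReal.ofReal_le_ofReal ?_
  rw [integral_add (integrable_pre μ n fun x => (n : ℝ) - plainC U x) (integrable_const _),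
    ← sub_avgC]
  simp only [integral_const, probReal_univ, smul_eq_mul, one_mul]
  linarith

theorem upper (hU : IsOptimal U) : ∃ c : ℝ, ∀ (μ : Measure (ℕ → Bool))
    [IsProbabilityMeasure μ], ∫⁻ X, liminf (fun n => g U n X) atTop ∂μ ≠ ⊤ →
      ∃ᶠ n : ℕ in atTop,
        (n : ℝ) - (4 * (∫⁻ X, liminf (fun n => g U n X) atTop ∂μ).toReal + c) ≤ avgC U μ n := by
  obtain ⟨c, hc⟩ := key hU
  refine ⟨4 + c, fun μ _ hE => frequently_atTop.2 fun j => ?_⟩
  obtain ⟨L, hL, hj, h⟩ := hc j
  set lim : (ℕ → Bool) → ℝ≥0∞ := fun X => liminf (fun n => g U n X) atTop with hlim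
  have hm : Measurable lim := Measurable.liminf fun n => measurable_g n
  have hint : Integrable (fun X => (lim X).toReal) μ :=
    integrable_toReal_of_lintegral_ne_top hm.aemeasurable hE
  have hfin : ∀ᵐ X ∂μ, lim X < ⊤ := ae_lt_top hm hE
  have hpt : ∀ᵐ X ∂μ, (L.map fun n : ℕ => (n : ℝ) - plainC U (pre n X)).sum ≤
      L.length * (4 * (lim X).toReal + (4 + c)) := by
    filter_upwards [hfin] with X hX
    have hlt : lim X < lim X + 1 := ENNReal.lt_add_right hX.ne one_ne_zero
    have hfr : ∃ᶠ m in atTop, g U m X < lim X + 1 := frequently_lt_of_liminf_lt (h := hlt)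
    obtain ⟨m, e1, e2, e3⟩ := (hfr.and_eventually (h.and (eventually_ge_atTop L.sum))).exists
    have e4 := e2 (pre m X) (length_pre m X)
    have e5 : (L.map fun n : ℕ => (n : ℝ) - plainC U ((pre m X).take n)) =
        L.map fun n : ℕ => (n : ℝ) - plainC U (pre n X) :=
      List.map_congr_left fun n hn => by rw [take_pre ((List.le_sum_of_mem hn).trans e3)]
    rw [e5] at e4
    refine e4.trans (mul_le_mul_of_nonneg_left ?_ (Nat.cast_nonneg _))
    have e6 : ((m - plainC U (pre m X) : ℕ) : ℝ) ≤ (lim X).toReal + 1 := by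
      have := ENNReal.toReal_mono (ENNReal.add_ne_top.2 ⟨hX.ne, ENNReal.one_ne_top⟩) e1.le
      rw [ENNReal.toReal_add hX.ne ENNReal.one_ne_top] at this
      simpa only [g, ENNReal.toReal_natCast, ENNReal.toReal_one] using this
    have e7 : (m : ℝ) - plainC U (pre m X) ≤ ((m - plainC U (pre m X) : ℕ) : ℝ) := by
      rcases le_total (plainC U (pre m X)) m with h | h
      · rw [Nat.cast_sub h]
      · rw [Nat.sub_eq_zero_of_le h]
        have : (m : ℝ) ≤ plainC U (pre m X) := by exact_mod_cast h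
        push_cast; linarith
    linarith
  obtain ⟨i1, i2⟩ := sum_sub_avgC (U := U) μ L
  have hsum : (L.map fun n : ℕ => (n : ℝ) - avgC U μ n).sum ≤
      L.length * (4 * (∫⁻ X, lim X ∂μ).toReal + (4 + c)) := by
    rw [i2]
    have i3 : Integrable (fun X => (L.length : ℝ) * (4 * (lim X).toReal + (4 + c))) μ :=
      ((hint.const_mul 4).add (integrable_const (4 + c))).const_mul (L.length : ℝ)
    refine (integral_mono_ae i1 i3 hpt).trans (le_of_eq ?_)
    rw [integral_const_mul, integral_add (hint.const_mul 4) (integrable_const _),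
      integral_const_mul, integral_toReal hm.aemeasurable hfin]
    simp
  by_contra hcon
  push Not at hcon
  have e3 : (L.map fun _ : ℕ => 4 * (∫⁻ X, lim X ∂μ).toReal + (4 + c)).sum <
      (L.map fun n : ℕ => (n : ℝ) - avgC U μ n).sum := by
    refine List.sum_lt_sum_of_ne_nil hL _ _ fun n hn => ?_
    have := hcon n (hj n hn)
    linarith
  simp only [List.map_const', List.sum_replicate, nsmul_eq_mul] at e3
  linarith

theorem char (hU : IsOptimal U) (μ : Measure (ℕ → Bool)) [IsProbabilityMeasure μ] :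
    KolmogorovRandom U μ ↔ ∫⁻ X, liminf (fun n => g U n X) atTop ∂μ < ⊤ := by
  constructor
  · rintro ⟨d, hd⟩
    obtain ⟨c, -, hc⟩ := lower hU
    exact (hc μ d hd).trans_lt ENNReal.ofReal_lt_top
  · intro h
    obtain ⟨c, hc⟩ := upper hU
    exact ⟨_, hc μ h.ne⟩

end Pool.Agent.MP_8ca5b0_lc.H70
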